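import Pool.Agent.K7.H47.DM.Stm4

set_option autoImplicit false

open Finset

namespace Pool.Agent.K7.H70.D4

/-- transposed Pascal minor -/
def A {n : ℕ} (t j : Fin n → ℕ) : Matrix (Fin n) (Fin n) ℚ :=
  Matrix.of fun c r => (((t r).choose (j c) : ℕ) : ℚ)

lemma zeroCase {n : ℕ} (t j : Fin (n + 1) → ℕ) (ht0 : t 0 = 0) (hj : StrictMono j) :
    (A t j).det = ((Nat.choose 0 (j 0) : ℕ) : ℚ) * (A (t ∘ Fin.succ) (j ∘ Fin.succ)).det := by
  rw [Matrix.det_succ_column_zero, Fin.sum_univ_succ]
  have h : ∑ i : Fin n, (-1 : ℚ) ^ ((i.succ : Fin (n + 1)) : ℕ) * A t j i.succ 0 *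
      ((A t j).submatrix (i.succ).succAbove Fin.succ).det = 0 := by
    apply Finset.sum_eq_zero
    intro i _
    have h1 : 0 < j i.succ := lt_of_le_of_lt (Nat.zero_le (j 0)) (hj (Fin.succ_pos i))
    have h2 : A t j i.succ 0 = 0 := by
      simp only [A, Matrix.of_apply, ht0]
      rw [Nat.choose_eq_zero_of_lt h1]; simp
    rw [h2]; ring
  rw [h, add_zero]
  have h3 : (A t j).submatrix (Fin.succAbove 0) Fin.succ = A (t ∘ Fin.succ) (j ∘ Fin.succ) := by
    ext a b
    simp [A, Matrix.submatrix_apply]
  rw [h3]
  simp [A, ht0]

lemma stepCase {n : ℕ} (t' j : Fin n → ℕ) :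
    (A (fun r => t' r + 1) j).det = ∑ S : Finset (Fin n),
      (Matrix.of (S.piecewise (fun c r => (((t' r).choose (j c) : ℕ) : ℚ))
        (fun c r => if j c = 0 then 0 else (((t' r).choose (j c - 1) : ℕ) : ℚ)))).det := by
  have h := MultilinearMap.map_add_univ
    (Matrix.detRowAlternating (n := Fin n) (R := ℚ)).toMultilinearMap
    (fun c r => (((t' r).choose (j c) : ℕ) : ℚ))
    (fun c r => if j c = 0 then 0 else (((t' r).choose (j c - 1) : ℕ) : ℚ))
  have h2 : (A (fun r => t' r + 1) j).det =
      (Matrix.detRowAlternating (n := Fin n) (R := ℚ)).toMultilinearMap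
        ((fun c r => (((t' r).choose (j c) : ℕ) : ℚ)) +
    (fun c r => if j c = 0 then 0 else (((t' r).choose (j c - 1) : ℕ) : ℚ))) := by
    change (A (fun r => t' r + 1) j).det = Matrix.det _
    congr 1
    ext c r
    simp only [A, Matrix.of_apply, Pi.add_apply]
    rcases hj : j c with _ | k
    · simp
    · simp only [Nat.succ_ne_zero, if_false, Nat.add_sub_cancel, Nat.choose_succ_succ']
      push_cast; ring
  rw [h2, h]
  rfl

theorem key : ∀ (s n : ℕ) (t j : Fin n → ℕ), n + ∑ r, t r ≤ s → StrictMono t → StrictMono j →
    0 ≤ (A t j).det ∧ ((∀ c, j c ≤ t c) → 0 < (A t j).det) := by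
  intro s
  induction s with
  | zero =>
    intro n t j hs _ _
    have hn : n = 0 := by omega
    subst hn
    simp
  | succ s ih =>
    intro n t j hs ht hj
    rcases n with _ | n
    · simp
    by_cases h0 : t 0 = 0
    · rw [zeroCase t j h0 hj]
      have hsum : n + ∑ r, (t ∘ Fin.succ) r ≤ s := by
        rw [Fin.sum_univ_succ] at hs
        simp only [Function.comp]; omega
      obtain ⟨i1, i2⟩ := ih n (t ∘ Fin.succ) (j ∘ Fin.succ) hsum
        (ht.comp Fin.strictMono_succ) (hj.comp Fin.strictMono_succ)
      refine ⟨mul_nonneg (by positivity) i1, fun hf => ?_⟩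
      have hj0 : j 0 = 0 := by have := hf 0; omega
      rw [hj0]
      simpa using i2 (fun c => hf c.succ)
    · have hpos : ∀ r, 0 < t r := fun r =>
        lt_of_lt_of_le (Nat.pos_of_ne_zero h0) (ht.monotone (Fin.zero_le r))
      set t' : Fin (n + 1) → ℕ := fun r => t r - 1 with ht'
      have htt : t = fun r => t' r + 1 := by
        funext r; have := hpos r; simp only [ht']; omega
      have hst' : StrictMono t' := by
        intro a b hab
        have := ht hab; have := hpos a; simp only [ht']; omega
      have hsum : n + 1 + ∑ r, t' r ≤ s := by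
        have h1 : ∑ r, t' r < ∑ r, t r := by
          apply Finset.sum_lt_sum_of_nonempty Finset.univ_nonempty
          intro r _
          have := hpos r; simp only [ht']; omega
        omega
      have hterm : ∀ S : Finset (Fin (n + 1)),
          (StrictMono (fun c => if c ∈ S then j c else j c - 1) ∧ ∀ c, c ∉ S → j c ≠ 0) ∧
          (Matrix.of (S.piecewise (fun c r => (((t' r).choose (j c) : ℕ) : ℚ))
        (fun c r => if j c = 0 then 0 else (((t' r).choose (j c - 1) : ℕ) : ℚ)))).det =
            (A t' (fun c => if c ∈ S then j c else j c - 1)).det ∨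
          (Matrix.of (S.piecewise (fun c r => (((t' r).choose (j c) : ℕ) : ℚ))
        (fun c r => if j c = 0 then 0 else (((t' r).choose (j c - 1) : ℕ) : ℚ)))).det = 0 := by
        intro S
        by_cases hz : ∀ c, c ∉ S → j c ≠ 0
        · have hmat : (Matrix.of (S.piecewise (fun c r => (((t' r).choose (j c) : ℕ) : ℚ))
              (fun c r => if j c = 0 then 0 else (((t' r).choose (j c - 1) : ℕ) : ℚ)))) =
              A t' (fun c => if c ∈ S then j c else j c - 1) := by
            ext c r
            simp only [A, Matrix.of_apply, Finset.piecewise]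
            by_cases hc : c ∈ S
            · simp [hc]
            · simp [hc, hz c hc]
          rw [hmat]
          by_cases hsm : StrictMono (fun c => if c ∈ S then j c else j c - 1)
          · exact Or.inl ⟨⟨hsm, hz⟩, rfl⟩
          · right
            have hex : ∃ a b : Fin (n + 1), a < b ∧ (if a ∈ S then j a else j a - 1) =
                (if b ∈ S then j b else j b - 1) := by
              by_contra hno
              apply hsm
              intro a b hab
              have h1 : (if a ∈ S then j a else j a - 1) ≠ (if b ∈ S then j b else j b - 1) :=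
                fun h => hno ⟨a, b, hab, h⟩
              have h2 := hj hab
              change (if a ∈ S then j a else j a - 1) < (if b ∈ S then j b else j b - 1)
              split_ifs at h1 ⊢ <;> omega
            obtain ⟨a, b, hab, he⟩ := hex
            apply Matrix.det_zero_of_row_eq (ne_of_lt hab)
            ext r
            simp only [A, Matrix.of_apply, he]
        · right
          push Not at hz
          obtain ⟨c, hc, hj0⟩ := hz
          apply Matrix.det_eq_zero_of_row_eq_zero c
          intro r
          simp [Finset.piecewise, hc, hj0]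
      have hnn : ∀ S : Finset (Fin (n + 1)), 0 ≤
          (Matrix.of (S.piecewise (fun c r => (((t' r).choose (j c) : ℕ) : ℚ))
        (fun c r => if j c = 0 then 0 else (((t' r).choose (j c - 1) : ℕ) : ℚ)))).det := by
        intro S
        rcases hterm S with ⟨⟨hsm, _⟩, h⟩ | h
        · rw [h]; exact (ih _ t' _ hsum hst' hsm).1
        · rw [h]
      rw [htt, stepCase t' j]
      refine ⟨Finset.sum_nonneg (fun S _ => hnn S), fun hf => ?_⟩
      apply Finset.sum_pos' (fun S _ => hnn S)
      refine ⟨Finset.univ.filter (fun c => j c < t c), Finset.mem_univ _, ?_⟩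
      have hz : ∀ c, c ∉ Finset.univ.filter (fun c => j c < t c) → j c ≠ 0 := by
        intro c hc
        simp only [Finset.mem_filter, Finset.mem_univ, true_and, not_lt] at hc
        have := hpos c; omega
      have hmat : (Matrix.of ((Finset.univ.filter (fun c => j c < t c)).piecewise
              (fun c r => (((t' r).choose (j c) : ℕ) : ℚ))
              (fun c r => if j c = 0 then 0 else (((t' r).choose (j c - 1) : ℕ) : ℚ)))) =
              A t' (fun c => if j c < t c then j c else j c - 1) := by
        ext c r
        simp only [A, Matrix.of_apply, Finset.piecewise]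
        by_cases hc : j c < t c
        · simp [hc]
        · have := hz c (by simpa using hc)
          simp [hc, this]
      rw [hmat]
      have hf' : ∀ c, j c ≤ t c := fun c => by
        have h4 : j c ≤ t' c + 1 := hf c
        have h3 : t c = t' c + 1 := congrFun htt c
        omega
      apply (ih _ t' _ hsum hst' _).2
      · intro c
        have := hf' c; have := hpos c
        simp only [ht']
        split_ifs <;> omega
      · intro a b hab
        have h1 := hj hab; have h2 := ht hab; have := hf' a; have := hf' b; have := hpos a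
        change (if j a < t a then j a else j a - 1) < (if j b < t b then j b else j b - 1)
        split_ifs <;> omega

theorem p : Pool.Agent.K7.H47.DM4.StP := by
  intro ι _ _ t j ht hj hf hdet
  obtain ⟨e1, he1⟩ : ∃ e : Fin (Fintype.card ι) ≃ ι, StrictMono (t ∘ e) := by
    refine ⟨(Tuple.sort (t ∘ (Fintype.equivFin ι).symm)).trans (Fintype.equivFin ι).symm, ?_⟩
    exact (Tuple.monotone_sort (t ∘ (Fintype.equivFin ι).symm)).strictMono_of_injective
      ((ht.comp (Fintype.equivFin ι).symm.injective).comp (Equiv.injective _))
  obtain ⟨e2, he2⟩ : ∃ e : Fin (Fintype.card ι) ≃ ι, StrictMono (j ∘ e) := by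
    refine ⟨(Tuple.sort (j ∘ (Fintype.equivFin ι).symm)).trans (Fintype.equivFin ι).symm, ?_⟩
    exact (Tuple.monotone_sort (j ∘ (Fintype.equivFin ι).symm)).strictMono_of_injective
      ((hj.comp (Fintype.equivFin ι).symm.injective).comp (Equiv.injective _))
  have hfeas : ∀ k, (j ∘ e2) k ≤ (t ∘ e1) k := by
    intro k
    by_contra hlt
    have hlt' : t (e1 k) < j (e2 k) := by simpa using hlt
    have h1 : ∀ l ∈ Finset.Iic k, e2.symm (e1 l) ∈ Finset.Iio k := by
      intro l hl
      rw [Finset.mem_Iic] at hl
      rw [Finset.mem_Iio]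
      have h2 : t (e1 l) ≤ t (e1 k) := he1.monotone hl
      have h3 : j (e1 l) < j (e2 k) := lt_of_le_of_lt ((hf (e1 l)).trans h2) hlt'
      have h4 : (j ∘ e2) (e2.symm (e1 l)) < (j ∘ e2) k := by simpa using h3
      exact he2.lt_iff_lt.1 h4
    have h5 := Finset.card_le_card_of_injOn (fun l => e2.symm (e1 l)) h1
      (fun a _ b _ hab => e1.injective (e2.symm.injective hab))
    rw [Fin.card_Iic, Fin.card_Iio] at h5
    omega
  have hpos := (key _ _ (t ∘ e1) (j ∘ e2) le_rfl he1 he2).2 hfeas
  set M : Matrix ι ι ℚ := Matrix.of fun r c => (((t r).choose (j c) : ℕ) : ℚ) with hM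
  have h1 : A (t ∘ e1) (j ∘ e2) =
      ((M.submatrix e1 e1).submatrix id (e2.trans e1.symm)).transpose := by
    ext a b
    simp [A, hM, Matrix.transpose_apply, Matrix.submatrix_apply]
  rw [h1, Matrix.det_transpose, Matrix.det_permute', Matrix.det_submatrix_equiv_self, hdet,
    mul_zero] at hpos
  exact lt_irrefl _ hpos

end Pool.Agent.K7.H70.D4
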