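import Pool.Agent.K7.H80.EC.Stm2

/-!
# Project EC2, job UB2: the union bound
-/

set_option autoImplicit false
set_option maxHeartbeats 600000

namespace Pool.Agent.K7.H70.ECUB2

open Pool.Agent.K7.H80.EC Finset

/-- the local event -/
def X {d : ℕ} (e : E d) (W : Finset (E d)) : Prop :=
  e ∈ W ∧ ∀ c ∈ Copies d 2, InCopy c e → ∃ f : E d, InCopy c f ∧ f ≠ e ∧ f ∉ W

lemma mem_f {α : Type} {p : α → Prop} {inst : DecidablePred p} {s : Finset α} {a : α} :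
    a ∈ @Finset.filter α p inst s ↔ a ∈ s ∧ p a := Finset.mem_filter

lemma mem_i {α : Type} {inst : DecidableEq α} {s t : Finset α} {a : α} :
    a ∈ @Inter.inter (Finset α) (@Finset.instInter α inst) s t ↔ a ∈ s ∧ a ∈ t := Finset.mem_inter

lemma cf {α : Type} (p : α → Prop) (inst : DecidablePred p) (s : Finset α) :
    ((@Finset.filter α p inst s).card : ℝ) =
      ∑ a ∈ s, @ite ℝ (p a) (Classical.propDecidable _) 1 0 := by
  rw [Finset.card_filter, Nat.cast_sum]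
  refine sum_congr rfl fun a _ => ?_
  by_cases h : p a
  · rw [if_pos h, if_pos h, Nat.cast_one]
  · rw [if_neg h, if_neg h, Nat.cast_zero]

lemma dc {α β : Type} (s : Finset α) (t : Finset β) (P : α → β → Prop)
    (i1 : ∀ a, DecidablePred (P a)) (i2 : ∀ b, DecidablePred (fun a => P a b)) :
    ∑ a ∈ s, ((@Finset.filter β (P a) (i1 a) t).card : ℝ) =
      ∑ b ∈ t, ((@Finset.filter α (fun a => P a b) (i2 b) s).card : ℝ) := by
  rw [sum_congr rfl fun a _ => cf (P a) (i1 a) t, sum_comm]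
  exact sum_congr rfl fun b _ => (cf (fun a => P a b) (i2 b) s).symm

lemma mem_nb {d : ℕ} (e f : E d) :
    f ∈ nb e ↔ (f = e ∨ ∃ c ∈ Copies d 2, InCopy c e ∧ InCopy c f) :=
  (mem_f (s := (univ : Finset (E d)))).trans
    ⟨fun h => h.2, fun h => ⟨mem_univ _, h⟩⟩

lemma fam (hProd : StProd) (hLoc : StLoc) {d : ℕ} {p : ℝ} (h0 : 0 ≤ p) (h1 : p ≤ 1)
    {C : Finset (E d)} (hC2 : ∀ e ∈ C, ∀ f ∈ C, e ≠ f → Disjoint (nb e) (nb f)) :
    ∃ F : Finset (Finset (E d)), (∀ W, W ∈ F ↔ ∀ e ∈ C, ¬ X e W) ∧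
      ∑ W ∈ F, wt (E d) p W ≤ (1 - (p - d * p ^ 4)) ^ C.card := by
  refine ⟨_, ?_, hProd (E d) p (p - d * p ^ 4) h0 h1 C nb (fun e W => X e W) hC2 ?_ ?_⟩
  · intro W
    exact mem_f.trans ⟨fun h => h.2, fun h => ⟨mem_univ _, h⟩⟩
  · intro e _ W
    have hself : e ∈ nb e := (mem_nb e e).2 (Or.inl rfl)
    constructor
    · rintro ⟨g1, g2⟩
      refine ⟨mem_i.2 ⟨g1, hself⟩, fun c' hc' hce => ?_⟩
      obtain ⟨f, hf1, hf2, hf3⟩ := g2 c' hc' hce
      exact ⟨f, hf1, hf2, fun h => hf3 (mem_i.1 h).1⟩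
    · rintro ⟨g1, g2⟩
      refine ⟨(mem_i.1 g1).1, fun c' hc' hce => ?_⟩
      obtain ⟨f, hf1, hf2, hf3⟩ := g2 c' hc' hce
      exact ⟨f, hf1, hf2, fun h => hf3 (mem_i.2 ⟨h, (mem_nb e f).2 (Or.inr ⟨c', hc', hce, hf1⟩)⟩)⟩
  · intro e _
    refine (hLoc d e p h0 h1).trans (le_of_eq (sum_congr (Finset.ext fun W => ?_) fun _ _ => rfl))
    constructor
    · intro h
      exact mem_f.2 ⟨mem_univ _, (mem_f.1 h).2⟩
    · intro h
      exact mem_f.2 ⟨mem_univ _, (mem_f.1 h).2⟩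

lemma real_bound {d k n : ℕ} {p : ℝ} (h0 : 0 ≤ p) (h1 : p ≤ 1) (h3 : 2 * d * p ^ 3 ≤ 1)
    (hC3 : 2 ^ (k - 1) ≤ (2 * k + 1) * n) : (1 - (p - d * p ^ 4)) ^ n ≤
      Real.exp (-(p * (2 : ℝ) ^ (k - 1) / (2 * (2 * k + 1)))) := by
  have hd4 : (d : ℝ) * p ^ 4 ≤ p / 2 := by
    have e1 : (d : ℝ) * p ^ 4 = (2 * d * p ^ 3) * (p / 2) := by ring
    rw [e1]
    have : 0 ≤ p / 2 := by linarith
    nlinarith
  have hd0 : 0 ≤ (d : ℝ) * p ^ 4 := by positivity
  have hb1 : (1 - (p - d * p ^ 4)) ^ n ≤ Real.exp (-(p / 2)) ^ n := by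
    refine pow_le_pow_left₀ (by linarith) ?_ _
    have := Real.add_one_le_exp (-(p / 2))
    linarith
  refine hb1.trans ?_
  rw [← Real.exp_nat_mul, Real.exp_le_exp]
  have h5 : (2 : ℝ) ^ (k - 1) ≤ (2 * k + 1) * n := by exact_mod_cast hC3
  have hk0 : (0 : ℝ) < 2 * (2 * k + 1) := by positivity
  have h6 : p * (2 : ℝ) ^ (k - 1) / (2 * (2 * k + 1)) ≤ p * n / 2 := by
    rw [div_le_div_iff₀ hk0 (by norm_num)]
    have := mul_le_mul_of_nonneg_left h5 h0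
    nlinarith
  have h7 : (n : ℝ) * -(p / 2) = -(p * n / 2) := by ring
  rw [h7]
  linarith

lemma ncf {α : Type} (i : Fintype α) (p : α → Prop) (inst : DecidablePred p) :
    (@Finset.filter α p inst (@Finset.univ α i)).card = Nat.card {x // p x} := by
  rw [Nat.card_eq_fintype_card, Fintype.card_subtype]

lemma fcard {α : Type} (i : Fintype α) : @Fintype.card α i = Nat.card α :=
  Nat.card_eq_fintype_card.symm

lemma mix' (hMix : StMix) {d : ℕ} (F : Finset (Finset (E d))) {p : ℝ} (h0 : 0 ≤ p) (h1 : p ≤ 1) :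
    (Nat.card {σ : Ord d //
      ∀ M : ℕ, (univ.filter fun a : E d => (σ.symm a : ℕ) < M) ∈ F} : ℝ) ≤
    (Nat.card (Ord d) : ℝ) * ∑ W ∈ F, wt (E d) p W := by
  have hm := hMix (E d) F p h0 h1
  rw [ncf, fcard (α := Fin (Fintype.card (E d)) ≃ E d) _] at hm
  exact hm

lemma copy_bound (hFirst : StFirst2) (hDisj : StDisj) (hMix : StMix) (hProd : StProd)
    (hLoc : StLoc) {d k : ℕ} (hk : 1 ≤ k) {p : ℝ} (h0 : 0 ≤ p) (h1 : p ≤ 1)
    (h3 : 2 * d * p ^ 3 ≤ 1) {c : Finset (Fin d) × (Fin d → Bool)} (hc : c ∈ Copies d k) :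
    (Nat.card {σ : Ord d // ∀ e : E d, InCopy c e → e ∉ final σ} : ℝ) ≤
      (Nat.card (Ord d) : ℝ) * Real.exp (-(p * (2 : ℝ) ^ (k - 1) / (2 * (2 * k + 1)))) := by
  obtain ⟨C, hC1, hC2, hC3⟩ := hDisj d k hk c hc
  obtain ⟨F, hF1, hF2⟩ := fam hProd hLoc h0 h1 hC2
  have hm := mix' hMix F h0 h1
  have hfin := mul_le_mul_of_nonneg_left (hF2.trans (real_bound h0 h1 h3 hC3))
    (Nat.cast_nonneg (α := ℝ) (Nat.card (Ord d)))
  refine le_trans ?_ (le_trans hm hfin)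
  have key : ∀ σ : Ord d, (∀ e : E d, InCopy c e → e ∉ final σ) →
      ∀ M : ℕ, (univ.filter fun a : E d => (σ.symm a : ℕ) < M) ∈ F := by
    intro σ hσ' M
    refine (hF1 _).2 fun e he hX => ?_
    obtain ⟨hX1, hX2⟩ := hX
    refine hσ' e (hC1 e he) (hFirst d σ e M (mem_f.1 hX1).2 fun c' hc' hce => ?_)
    obtain ⟨f, hf1, hf2, hf3⟩ := hX2 c' hc' hce
    refine ⟨f, hf1, hf2, ?_⟩
    by_contra hlt
    push Not at hlt
    exact hf3 (mem_f.2 ⟨mem_univ _, hlt⟩)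
  refine Nat.cast_le.2 (Nat.card_le_card_of_injective (Subtype.map id key) ?_)
  exact Subtype.map_injective _ Function.injective_id

lemma copies_card (d k : ℕ) : ((Copies d k).card : ℝ) ≤ 4 ^ d := by
  have h1 : (Copies d k).card ≤ Fintype.card (Finset (Fin d) × (Fin d → Bool)) := card_le_univ _
  have h2 : Fintype.card (Finset (Fin d) × (Fin d → Bool)) = 4 ^ d := by
    rw [Fintype.card_prod, Fintype.card_finset, Fintype.card_fin, Fintype.card_fun,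
      Fintype.card_bool, Fintype.card_fin, ← mul_pow]
    norm_num
  rw [h2] at h1
  exact_mod_cast h1

/-- **JOB UB2** -/
theorem t (hFirst : StFirst2) (hDisj : StDisj) (hMix : StMix) (hProd : StProd)
    (hLoc : StLoc) : StUB2 := by
  intro d k hk hkd p h0 h1 h3
  have hcard : (0 : ℝ) < (Nat.card (Ord d) : ℝ) := by
    have : Nonempty (Ord d) := ⟨(Fintype.equivFin (E d)).symm⟩
    exact_mod_cast Nat.card_pos
  have hsum : (∑ σ : Ord d, (NE k σ : ℝ)) =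
      ∑ c ∈ Copies d k, ((@Finset.filter (Ord d)
        (fun σ : Ord d => ∀ e : E d, InCopy c e → e ∉ final σ)
        (fun _ => Classical.propDecidable _) univ).card : ℝ) :=
    dc univ (Copies d k) (fun (σ : Ord d) c => ∀ e : E d, InCopy c e → e ∉ final σ) _
      (fun _ _ => Classical.propDecidable _)
  unfold EN
  rw [fcard (α := Ord d) _, div_le_iff₀ hcard, hsum]
  refine (sum_le_sum fun c hc => ?_ : _ ≤ ∑ _c ∈ Copies d k, (Nat.card (Ord d) : ℝ) *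
    Real.exp (-(p * (2 : ℝ) ^ (k - 1) / (2 * (2 * k + 1))))).trans ?_
  · rw [ncf]
    exact copy_bound hFirst hDisj hMix hProd hLoc hk h0 h1 h3 hc
  rw [sum_const, nsmul_eq_mul]
  have h6 : 0 ≤ (Nat.card (Ord d) : ℝ) *
      Real.exp (-(p * (2 : ℝ) ^ (k - 1) / (2 * (2 * k + 1)))) := by positivity
  have h7 := mul_le_mul_of_nonneg_right (copies_card d k) h6
  refine h7.trans (le_of_eq ?_)
  ring

end Pool.Agent.K7.H70.ECUB2
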