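import Pool.Agent.K7.H25.GD.Stm

/-!
# Project GD, job SIZE: the maximal cliques have two possible sizes
-/

set_option autoImplicit false

namespace Pool.Agent.K7.H70.GDSIZE

open Pool.Agent.K7.H25.GD

variable {V : Type} {G : SimpleGraph V}

lemma diamond (hT : Two G) {x y a b : V} (hxy : G.Adj x y) (hax : G.Adj a x) (hay : G.Adj a y)
    (hbx : G.Adj b x) (hby : G.Adj b y) (hab : a ≠ b) : G.Adj a b := by
  by_contra h
  exact hxy.ne (hT.1 a b x y hab h hax hbx hay hby)

lemma mem_line {u z x : V} : x ∈ line G u z ↔ x = u ∨ x = z ∨ (G.Adj u x ∧ G.Adj z x) := Iff.rfl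

lemma line_comm (u z : V) : line G u z = line G z u := by
  ext x
  rw [mem_line, mem_line]
  tauto

lemma clique (hT : Two G) {u z : V} (h : G.Adj u z) {x y : V} (hx : x ∈ line G u z)
    (hy : y ∈ line G u z) (hxy : x ≠ y) : G.Adj x y := by
  rcases hx with rfl | rfl | ⟨h1, h2⟩ <;> rcases hy with rfl | rfl | ⟨h3, h4⟩
  · exact absurd rfl hxy
  · exact h
  · exact h3
  · exact h.symm
  · exact absurd rfl hxy
  · exact h4
  · exact h1.symm
  · exact h2.symm
  · exact diamond hT h h1.symm h2.symm h3.symm h4.symm hxy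

lemma line_eq (hT : Two G) {u z : V} (h : G.Adj u z) {x y : V} (hx : x ∈ line G u z)
    (hy : y ∈ line G u z) (hxy : x ≠ y) : line G x y = line G u z := by
  have hadj := clique hT h hx hy hxy
  have key : ∀ t w : V, t ∈ line G u z → w ≠ t → G.Adj x w → G.Adj y w → G.Adj t w := by
    intro t w ht hwt h1 h2
    by_cases htx : t = x
    · rw [htx]; exact h1
    by_cases hty : t = y
    · rw [hty]; exact h2
    exact diamond hT hadj (clique hT h ht hx htx) (clique hT h ht hy hty) h1.symm h2.symm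
      (Ne.symm hwt)
  ext w
  constructor
  · rintro (rfl | rfl | ⟨h1, h2⟩)
    · exact hx
    · exact hy
    · by_cases hu : w = u
      · exact Or.inl hu
      by_cases hz : w = z
      · exact Or.inr (Or.inl hz)
      exact Or.inr (Or.inr ⟨key u w (Or.inl rfl) hu h1 h2, key z w (Or.inr (Or.inl rfl)) hz h1 h2⟩)
  · intro hw
    by_cases h1 : w = x
    · exact Or.inl h1
    by_cases h2 : w = y
    · exact Or.inr (Or.inl h2)
    exact Or.inr (Or.inr ⟨clique hT h hx hw (Ne.symm h1), clique hT h hy hw (Ne.symm h2)⟩)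

variable [Finite V]

lemma f_add (hT : Two G) {u z : V} (h : G.Adj u z) :
    (G.neighborSet u \ line G u z).ncard + (line G u z).ncard = (G.neighborSet u).ncard + 1 := by
  have h1 : G.neighborSet u ∩ line G u z = line G u z \ {u} := by
    ext x
    constructor
    · rintro ⟨h2, h3⟩
      exact ⟨h3, fun h4 => G.loopless.irrefl u (by rw [Set.mem_singleton_iff] at h4; rwa [h4] at h2)⟩
    · rintro ⟨h2, h3⟩
      exact ⟨clique hT h (Or.inl rfl) h2 (Ne.symm h3), h2⟩
  have h2 := Set.ncard_inter_add_ncard_diff_eq_ncard (G.neighborSet u) (line G u z)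
    (Set.toFinite _)
  have hu : u ∈ line G u z := Or.inl rfl
  have h3 := Set.ncard_diff_singleton_add_one hu (Set.toFinite _)
  rw [h1] at h2
  omega

lemma two_le {u z : V} (h : G.Adj u z) : 2 ≤ (line G u z).ncard := by
  rw [← Set.ncard_pair h.ne]
  refine Set.ncard_le_ncard ?_ (Set.toFinite _)
  rintro x (rfl | rfl)
  · exact Or.inl rfl
  · exact Or.inr (Or.inl rfl)

lemma a_step (hDeg : StDeg) (hNbr : StNbr) (hT : Two G) (hN : NoDom G) {u v z : V}
    (hu : G.Adj u z) (hv : G.Adj v z) :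
    (G.neighborSet u \ line G u z).ncard = (G.neighborSet v \ line G v z).ncard := by
  by_cases huv : u = v
  · rw [huv]
  by_cases hadj : G.Adj u v
  · have hvl : v ∈ line G u z := Or.inr (Or.inr ⟨hadj, hv.symm⟩)
    have hl : line G v z = line G u z := line_eq hT hu hvl (Or.inr (Or.inl rfl)) hv.ne
    obtain ⟨p, q, hpq, hzp, hzq, hn⟩ := hNbr V G hT hN z
    obtain ⟨w, hzw, hw⟩ : ∃ w, G.Adj z w ∧ w ∉ line G u z := by
      by_contra hc
      push Not at hc
      exact hn (clique hT hu (hc p hzp) (hc q hzq) hpq)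
    have hwu : ¬ G.Adj u w := fun h => hw (Or.inr (Or.inr ⟨h, hzw⟩))
    have hwv : ¬ G.Adj v w := fun h => hw (by rw [← hl]; exact Or.inr (Or.inr ⟨h, hzw⟩))
    have hne1 : u ≠ w := fun h => hw (by rw [← h]; exact Or.inl rfl)
    have hne2 : v ≠ w := fun h => hw (by rw [← h]; exact hvl)
    rw [hDeg V G hT u w z hne1 hwu hu hzw.symm, hDeg V G hT v w z hne2 hwv hv hzw.symm]
  · exact hDeg V G hT u v z huv hadj hu hv

lemma b_step (hDeg : StDeg) (hNbr : StNbr) (hT : Two G) (hN : NoDom G) {u z : V}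
    (h : G.Adj u z) (h3 : 3 ≤ (line G u z).ncard) :
    (G.neighborSet u).ncard = (G.neighborSet z).ncard := by
  obtain ⟨w, hw, hwu, hwz⟩ : ∃ w ∈ line G u z, w ≠ u ∧ w ≠ z := by
    by_contra hc
    push Not at hc
    have h4 : line G u z ⊆ {u, z} := by
      intro w hw
      by_cases h5 : w = u
      · exact Or.inl h5
      · exact Or.inr (hc w hw h5)
    have h5 := Set.ncard_le_ncard h4 (Set.toFinite _)
    rw [Set.ncard_pair h.ne] at h5
    omega
  have huw : G.Adj u w := clique hT h (Or.inl rfl) hw (Ne.symm hwu)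
  have hzw : G.Adj z w := clique hT h (Or.inr (Or.inl rfl)) hw (Ne.symm hwz)
  have e1 : line G u w = line G u z := line_eq hT h (Or.inl rfl) hw (Ne.symm hwu)
  have e2 : line G z w = line G u z := line_eq hT h (Or.inr (Or.inl rfl)) hw (Ne.symm hwz)
  have e3 := a_step hDeg hNbr hT hN huw hzw
  have e4 := f_add hT huw
  have e5 := f_add hT hzw
  rw [e1] at e3 e4
  rw [e2] at e3 e5
  omega

/-- `z` lies in a line of size `s ≥ 3` -/
def In (G : SimpleGraph V) (z : V) (s : ℕ) : Prop :=
  3 ≤ s ∧ ∃ y, G.Adj y z ∧ (line G y z).ncard = s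

lemma c_step (hDeg : StDeg) (hNbr : StNbr) (hT : Two G) (hN : NoDom G) {z : V} {s s' : ℕ}
    (h : In G z s) (h' : In G z s') : s = s' := by
  obtain ⟨h3, y, hy, rfl⟩ := h
  obtain ⟨h3', y', hy', rfl⟩ := h'
  have e1 := a_step hDeg hNbr hT hN hy hy'
  have e2 := f_add hT hy
  have e3 := f_add hT hy'
  have e4 := b_step hDeg hNbr hT hN hy h3
  have e5 := b_step hDeg hNbr hT hN hy' h3'
  omega

lemma d_step (hDeg : StDeg) (hNbr : StNbr) (hT : Two G) (hN : NoDom G) {u z : V} {s : ℕ}
    (h : In G z s) (hu : G.Adj u z) (h2 : (line G u z).ncard = 2) :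
    (G.neighborSet u).ncard + s = (G.neighborSet z).ncard + 2 := by
  obtain ⟨h3, y, hy, rfl⟩ := h
  have e1 := a_step hDeg hNbr hT hN hy hu
  have e2 := f_add hT hy
  have e3 := f_add hT hu
  have e4 := b_step hDeg hNbr hT hN hy h3
  omega

lemma adj_step (hDeg : StDeg) (hNbr : StNbr) (hT : Two G) (hN : NoDom G) {u z : V} {s s' : ℕ}
    (h : In G z s) (h' : In G u s') (hu : G.Adj u z) : s = s' := by
  have h2 := two_le hu
  have hc : line G u z = line G z u := line_comm u z
  by_cases h3 : (line G u z).ncard = 2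
  · have e1 := d_step hDeg hNbr hT hN h hu h3
    have e2 := d_step hDeg hNbr hT hN h' hu.symm (by rw [← hc]; exact h3)
    have e3 := h.1
    have e4 := h'.1
    omega
  · have h4 : 3 ≤ (line G u z).ncard := by omega
    have e1 := c_step hDeg hNbr hT hN h ⟨h4, u, hu, rfl⟩
    have e2 := c_step hDeg hNbr hT hN h' ⟨by rw [← hc]; exact h4, z, hu.symm, rfl⟩
    rw [e1, e2, hc]

lemma e_step (hDeg : StDeg) (hNbr : StNbr) (hT : Two G) (hN : NoDom G) {z z' : V} {s s' : ℕ}
    (h : In G z s) (h' : In G z' s') : s = s' := by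
  by_cases hz : z = z'
  · subst hz
    exact c_step hDeg hNbr hT hN h h'
  by_cases hadj : G.Adj z' z
  · exact adj_step hDeg hNbr hT hN h h' hadj
  obtain ⟨y, h1, h2⟩ := hT.2 z z' hz (fun h => hadj h.symm)
  by_cases hy : ∃ t, In G y t
  · obtain ⟨t, ht⟩ := hy
    rw [adj_step hDeg hNbr hT hN h ht h1.symm, adj_step hDeg hNbr hT hN h' ht h2.symm]
  · push Not at hy
    have h3 := two_le h1
    have h4 := two_le h2
    have h5 : (line G z y).ncard = 2 := by
      by_contra hc
      exact hy _ ⟨by omega, z, h1, rfl⟩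
    have h6 : (line G z' y).ncard = 2 := by
      by_contra hc
      exact hy _ ⟨by omega, z', h2, rfl⟩
    have e1 := a_step hDeg hNbr hT hN h1 h2
    have e2 := f_add hT h1
    have e3 := f_add hT h2
    have e4 := d_step hDeg hNbr hT hN h h1.symm (by rw [line_comm]; exact h5)
    have e5 := d_step hDeg hNbr hT hN h' h2.symm (by rw [line_comm]; exact h6)
    omega

/-- **JOB SIZE** -/
theorem t (hDeg : StDeg) (hNbr : StNbr) : StSize := by
  intro V _ _ G hT hN
  have key : ∀ C : Set V, MaxClique G C → ∃ u z : V, G.Adj u z ∧ C = line G u z := by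
    intro C hC
    obtain ⟨c, hc⟩ : C.Nonempty := by
      by_contra hn
      rw [Set.not_nonempty_iff_eq_empty] at hn
      obtain ⟨x⟩ := ‹Nonempty V›
      have := hC.2 x (by rw [hn]; intro c hc; exact absurd hc (Set.notMem_empty _))
      rw [hn] at this
      exact this
    obtain ⟨z, hz, hzc⟩ : ∃ z ∈ C, z ≠ c := by
      by_contra hn
      push Not at hn
      obtain ⟨p, q, -, hp, -, -⟩ := hNbr V G hT hN c
      have h1 : p ∈ C := hC.2 p fun x hx _ => by
        rw [hn x hx]
        exact hp.symm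
      exact hp.ne (hn p h1).symm
    have hadj : G.Adj c z := hC.1 hc hz (Ne.symm hzc)
    refine ⟨c, z, hadj, Set.Subset.antisymm ?_ ?_⟩
    · intro x hx
      by_cases h1 : x = c
      · exact Or.inl h1
      by_cases h2 : x = z
      · exact Or.inr (Or.inl h2)
      exact Or.inr (Or.inr ⟨hC.1 hc hx (Ne.symm h1), hC.1 hz hx (Ne.symm h2)⟩)
    · intro x hx
      refine hC.2 x fun y hy hxy => ?_
      refine clique hT hadj hx ?_ hxy
      by_cases h1 : y = c
      · exact Or.inl h1
      by_cases h2 : y = z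
      · exact Or.inr (Or.inl h2)
      exact Or.inr (Or.inr ⟨hC.1 hc hy (Ne.symm h1), hC.1 hz hy (Ne.symm h2)⟩)
  by_cases hex : ∃ z s, In G z s
  · obtain ⟨z, s, hs⟩ := hex
    refine ⟨s, hs.1, fun C hC => ?_⟩
    obtain ⟨u, y, hadj, rfl⟩ := key C hC
    by_cases h2 : (line G u y).ncard = 2
    · exact Or.inl h2
    · have h3 := two_le hadj
      exact Or.inr (e_step hDeg hNbr hT hN ⟨by omega, u, hadj, rfl⟩ hs)
  · push Not at hex
    refine ⟨3, le_rfl, fun C hC => ?_⟩
    obtain ⟨u, y, hadj, rfl⟩ := key C hC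
    by_cases h2 : (line G u y).ncard = 2
    · exact Or.inl h2
    · have h3 := two_le hadj
      exact absurd ⟨by omega, u, hadj, rfl⟩ (hex y _)

end Pool.Agent.K7.H70.GDSIZE
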