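import Pool.Agent.K7.H72.IP.Stm

/-!
# Project IP, job RED: reduction to connected graphs of minimum degree at least two
-/

set_option autoImplicit false

namespace Pool.Agent.K7.H70.IPRED

open Pool.Agent.K7.H72.IP SimpleGraph

/-- a closed set and its complement -/
noncomputable def splitIso {V : Type} (H : SimpleGraph V) (A : Set V)
    (hA : ∀ x ∈ A, ∀ y, H.Adj x y → y ∈ A) :
    ((H.comap (Subtype.val : A → V)) ⊕g (H.comap (Subtype.val : (Aᶜ : Set V) → V))) ≃g H :=
  { toEquiv := by
      classical
      exact Equiv.Set.sumCompl A
    map_rel_iff' := by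
      classical
      intro a b
      rcases a with a | a <;> rcases b with b | b
      · simp [Equiv.Set.sumCompl_apply_inl]
      · simp only [Equiv.Set.sumCompl_apply_inl, Equiv.Set.sumCompl_apply_inr]
        constructor
        · intro h
          exact absurd (hA _ a.2 _ h) b.2
        · intro h
          simp at h
      · simp only [Equiv.Set.sumCompl_apply_inl, Equiv.Set.sumCompl_apply_inr]
        constructor
        · intro h
          exact absurd (hA _ b.2 _ h.symm) a.2
        · intro h
          simp at h
      · simp [Equiv.Set.sumCompl_apply_inr] }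

/-- a vertex of degree one -/
noncomputable def pendIso {V : Type} (H : SimpleGraph V) (x v : V) (hv : v ≠ x)
    (h : ∀ w, H.Adj x w ↔ w = v) :
    (pend (H.comap (Subtype.val : {y // y ≠ x} → V)) ⟨v, hv⟩) ≃g H :=
  { toEquiv := by
      classical
      exact Equiv.optionSubtypeNe x
    map_rel_iff' := by
      classical
      intro a b
      rcases a with _ | a <;> rcases b with _ | b
      · simp [pend]
      · simp only [Equiv.optionSubtypeNe_none, Equiv.optionSubtypeNe_some]
        rw [h]
        constructor
        · intro hb
          exact Or.inr (Or.inr ⟨rfl, congrArg some (Subtype.ext hb)⟩)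
        · rintro (⟨p, q, h1, -, -⟩ | ⟨h1, -⟩ | ⟨-, h1⟩)
          · cases h1
          · cases h1
          · exact congrArg Subtype.val (Option.some.inj h1)
      · simp only [Equiv.optionSubtypeNe_none, Equiv.optionSubtypeNe_some]
        rw [H.adj_comm, h]
        constructor
        · intro hb
          exact Or.inr (Or.inl ⟨congrArg some (Subtype.ext hb), rfl⟩)
        · rintro (⟨p, q, -, h1, -⟩ | ⟨h1, -⟩ | ⟨h1, -⟩)
          · cases h1
          · exact congrArg Subtype.val (Option.some.inj h1)
          · cases h1
      · simp only [Equiv.optionSubtypeNe_some]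
        constructor
        · intro hb
          exact Or.inl ⟨a, b, rfl, rfl, hb⟩
        · rintro (⟨p, q, h1, h2, h3⟩ | ⟨-, h1⟩ | ⟨h1, -⟩)
          · cases h1
            cases h2
            exact h3
          · cases h1
          · cases h1 }

lemma main (hPend : StPend) (hDisj : StDisj) (hK2 : StK2) (hIso : StIso)
    (hc : ∀ (k : ℕ) (K : SimpleGraph (Fin k)), K.Colorable 2 → K.Connected → (∀ v, 2 ≤ dg K v) → Q K) :
    ∀ (k : ℕ) (V : Type) [Finite V] [Nonempty V] (H : SimpleGraph V), Nat.card V = k →
      H.Colorable 2 → (∀ v, ∃ w, H.Adj v w) → Q H := by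
  intro k
  induction k using Nat.strong_induction_on with
  | _ k ih =>
    intro V _ _ H hk hcol hadj
    by_cases hsp : ∃ A : Set V, A.Nonempty ∧ (Aᶜ).Nonempty ∧ ∀ x ∈ A, ∀ y, H.Adj x y → y ∈ A
    · obtain ⟨A, hA1, hA2, hA⟩ := hsp
      have hA' : ∀ x ∈ Aᶜ, ∀ y, H.Adj x y → y ∈ Aᶜ := fun x hx y hxy hy =>
        hx (hA y hy x hxy.symm)
      have : Nonempty A := hA1.to_subtype
      have : Nonempty (Aᶜ : Set V) := hA2.to_subtype
      have hlt : ∀ B : Set V, (Bᶜ).Nonempty → Nat.card B < k := by
        intro B hB
        rw [Nat.card_coe_set_eq, ← hk, ← Set.ncard_univ]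
        refine Set.ncard_lt_ncard ?_ (Set.toFinite _)
        rw [Set.ssubset_univ_iff]
        intro h
        rw [h, Set.compl_univ] at hB
        exact Set.not_nonempty_empty hB
      have hcolB : ∀ B : Set V, (H.comap (Subtype.val : B → V)).Colorable 2 := fun B =>
        hcol.of_hom ⟨Subtype.val, fun h => h⟩
      have hadjB : ∀ B : Set V, (∀ x ∈ B, ∀ y, H.Adj x y → y ∈ B) →
          ∀ v : B, ∃ w : B, (H.comap (Subtype.val : B → V)).Adj v w := by
        intro B hB v
        obtain ⟨w, hw⟩ := hadj v
        exact ⟨⟨w, hB _ v.2 _ hw⟩, hw⟩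
      have q1 := ih _ (hlt A hA2) A (H.comap (Subtype.val : A → V)) rfl (hcolB A) (hadjB A hA)
      have q2 := ih _ (hlt (Aᶜ) (by rw [compl_compl]; exact hA1)) (Aᶜ : Set V)
        (H.comap (Subtype.val : (Aᶜ : Set V) → V)) rfl (hcolB _) (hadjB _ hA')
      have hne : ∀ B : Set V, (∀ x ∈ B, ∀ y, H.Adj x y → y ∈ B) → Nonempty B →
          (H.comap (Subtype.val : B → V)).edgeSet.Nonempty := by
        intro B hB ⟨v⟩
        obtain ⟨w, hw⟩ := hadjB B hB v
        exact ⟨s(v, w), hw⟩
      exact hIso _ _ _ _ ⟨splitIso H A hA⟩ (hDisj _ _ _ _ (hne A hA inferInstance)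
        (hne _ hA' inferInstance) (hadjB A hA) (hadjB _ hA') q1 q2)
    · push Not at hsp
      have hall : ∀ A : Set V, A.Nonempty → (∀ x ∈ A, ∀ y, H.Adj x y → y ∈ A) → A = Set.univ := by
        intro A h1 h2
        by_contra h3
        have h4 : (Aᶜ).Nonempty := by
          rw [Set.nonempty_compl]
          exact h3
        obtain ⟨x, hx, y, hxy, hy⟩ := hsp A h1 h4
        exact hy (h2 x hx y hxy)
      by_cases hdeg : ∀ v, 2 ≤ dg H v
      · have hconn : H.Connected := by
          refine ⟨fun u v => ?_⟩
          have h1 := hall {w | H.Reachable u w} ⟨u, Reachable.refl u⟩ fun x hx y hxy =>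
            Reachable.trans hx hxy.reachable
          have h2 : v ∈ {w | H.Reachable u w} := by rw [h1]; trivial
          exact h2
        let e : V ≃ Fin k := Finite.equivFinOfCardEq hk
        let K : SimpleGraph (Fin k) := H.comap e.symm
        let φ : K ≃g H := ⟨e.symm, Iff.rfl⟩
        refine hIso _ _ K H ⟨φ⟩ (hc k K (hcol.of_hom φ.toHom) (φ.connected_iff.2 hconn) fun a => ?_)
        have h1 : {w | H.Adj (e.symm a) w} = e.symm '' {w | K.Adj a w} := by
          ext w
          constructor
          · intro hw
            refine ⟨e w, ?_, e.symm_apply_apply w⟩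
            show H.Adj (e.symm a) (e.symm (e w))
            rw [e.symm_apply_apply]
            exact hw
          · rintro ⟨z, hz, rfl⟩
            exact hz
        have h2 := hdeg (e.symm a)
        unfold dg at h2 ⊢
        rw [h1, Set.ncard_image_of_injective _ e.symm.injective] at h2
        exact h2
      · push Not at hdeg
        obtain ⟨x, hx⟩ := hdeg
        obtain ⟨v, hv⟩ := hadj x
        have huniq : ∀ w, H.Adj x w ↔ w = v := by
          intro w
          constructor
          · intro hw
            have h1 : {w | H.Adj x w}.ncard ≤ 1 := by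
              unfold dg at hx
              omega
            exact (Set.ncard_le_one (Set.toFinite _)).1 h1 w hw v hv
          · rintro rfl
            exact hv
        have hvx : v ≠ x := hv.ne'
        by_cases hiso : ∃ w, w ≠ x ∧ H.Adj v w
        · obtain ⟨w, hwx, hvw⟩ := hiso
          have : Nonempty {y // y ≠ x} := ⟨⟨v, hvx⟩⟩
          have hadj' : ∀ y : {y // y ≠ x}, ∃ z : {y // y ≠ x},
              (H.comap (Subtype.val : {y // y ≠ x} → V)).Adj y z := by
            intro y
            obtain ⟨z, hz⟩ := hadj y
            by_cases hzx : z = x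
            · rw [hzx] at hz
              have hy : (y : V) = v := (huniq y).1 hz.symm
              refine ⟨⟨w, hwx⟩, ?_⟩
              show H.Adj y w
              rw [hy]
              exact hvw
            · exact ⟨⟨z, hzx⟩, hz⟩
          have hlt : Nat.card {y // y ≠ x} < k := by
            rw [← hk]
            have h1 : Nat.card {y // y ≠ x} = ({y | y ≠ x} : Set V).ncard := rfl
            rw [h1, ← Set.ncard_univ]
            refine Set.ncard_lt_ncard ?_ (Set.toFinite _)
            rw [Set.ssubset_univ_iff]
            intro h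
            have : x ∈ ({y | y ≠ x} : Set V) := by rw [h]; trivial
            exact this rfl
          have q1 := ih _ hlt {y // y ≠ x} (H.comap (Subtype.val : {y // y ≠ x} → V)) rfl
            (hcol.of_hom ⟨Subtype.val, fun h => h⟩) hadj'
          exact hIso _ _ _ _ ⟨pendIso H x v hvx huniq⟩ (hPend _ _ hadj' q1 ⟨v, hvx⟩)
        · push Not at hiso
          have h1 := hall {x, v} ⟨x, Or.inl rfl⟩ (by
            rintro y (rfl | rfl) z hz
            · exact Or.inr ((huniq z).1 hz)
            · by_contra hc
              exact hiso z (fun h => hc (Or.inl h)) hz)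
          have hcard : Nat.card V = 2 := by
            rw [← Set.ncard_univ, ← h1, Set.ncard_pair hvx.symm]
          have hH : ∀ a b : V, H.Adj a b ↔ a ≠ b := by
            intro a b
            constructor
            · exact fun h => h.ne
            · intro hab
              have ha : a ∈ ({x, v} : Set V) := by rw [h1]; trivial
              have hb : b ∈ ({x, v} : Set V) := by rw [h1]; trivial
              rcases ha with rfl | rfl <;> rcases hb with rfl | rfl
              · exact absurd rfl hab
              · exact hv
              · exact hv.symm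
              · exact absurd rfl hab
          let e : V ≃ Fin 2 := Finite.equivFinOfCardEq hcard
          refine hIso _ _ (⊤ : SimpleGraph (Fin 2)) H ⟨⟨e.symm, ?_⟩⟩ hK2
          intro a b
          rw [hH, top_adj]
          exact e.symm.injective.ne_iff

/-- **JOB RED** -/
theorem t (hPend : StPend) (hDisj : StDisj) (hK2 : StK2) (hIso : StIso) : StRed := by
  intro hc k H hcol hne hadj
  obtain ⟨e, he⟩ := hne
  induction e with
  | _ a b =>
    have : Nonempty (Fin k) := ⟨a⟩
    exact main hPend hDisj hK2 hIso hc _ (Fin k) H rfl hcol hadj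

end Pool.Agent.K7.H70.IPRED
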