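import Pool.Agent.K7.H16.SG.Stm

set_option autoImplicit false

open Finset

namespace Pool.Agent.K7.H70.SGREC2

open Pool.Agent.K7.H16.SG

lemma Dins (hF0 : StF0) (hW : StW) (A : Finset ℕ) (M : ℕ) (hA : ∀ a ∈ A, a < M) :
    D (insert M A) = ∑ τ ∈ words A, f (τ ++ [M]) ^ 2 := by
  obtain ⟨hw, -, -, -⟩ := hW
  have hinj : Set.InjOn (fun τ : List ℕ => τ ++ [M]) (words A : Set (List ℕ)) := by
    intro a _ b _ h
    simpa using h
  unfold D
  rw [← Finset.sum_image (f := fun w => f w ^ 2) (g := fun τ : List ℕ => τ ++ [M]) hinj]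
  symm
  apply Finset.sum_subset
  · intro w hw'
    obtain ⟨τ, hτ, rfl⟩ := Finset.mem_image.1 hw'
    rw [hw] at hτ ⊢
    obtain ⟨h1, h2⟩ := hτ
    have hM : M ∉ τ := fun h => by
      have : M ∈ A := by rw [← h2]; simpa using h
      exact absurd (hA M this) (lt_irrefl _)
    constructor
    · rw [List.nodup_append]
      refine ⟨h1, by simp, ?_⟩
      intro a ha b hb
      rw [List.mem_singleton] at hb
      subst hb
      rintro rfl
      exact hM ha
    · ext x
      rw [List.mem_toFinset, List.mem_append, Finset.mem_insert, ← h2, List.mem_toFinset,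
        List.mem_singleton, or_comm]
  · intro w hw1 hw2
    by_contra hne
    have hf : f w ≠ 0 := fun h => hne (by simp [h])
    rw [hw] at hw1
    obtain ⟨h1, h2⟩ := hw1
    have hwn : w ≠ [] := by
      rintro rfl
      have : M ∈ (([] : List ℕ).toFinset) := by rw [h2]; exact Finset.mem_insert_self _ _
      simp at this
    obtain ⟨τ, m, rfl, hm⟩ := hF0 w h1 hf hwn
    have hMw : M ∈ (τ ++ [m]).toFinset := by rw [h2]; exact Finset.mem_insert_self _ _
    rw [List.mem_toFinset, List.mem_append, List.mem_singleton] at hMw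
    have hmA : m ∈ insert M A := by rw [← h2]; simp
    have hmM : m = M := by
      rcases hMw with h | h
      · have h3 := hm M h
        rcases Finset.mem_insert.1 hmA with h4 | h4
        · exact h4
        · exact absurd (hA m h4) (by omega)
      · exact h.symm
    subst hmM
    apply hw2
    apply Finset.mem_image.2
    refine ⟨τ, ?_, rfl⟩
    rw [hw]
    rw [List.nodup_append] at h1
    obtain ⟨h11, h12, h13⟩ := h1
    refine ⟨h11, ?_⟩
    ext x
    constructor
    · intro hx
      rw [List.mem_toFinset] at hx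
      have : x ∈ insert m A := by rw [← h2]; simp [hx]
      rcases Finset.mem_insert.1 this with h4 | h4
      · exact absurd h4 (h13 x hx m (by simp))
      · exact h4
    · intro hx
      have : x ∈ (τ ++ [m]).toFinset := by rw [h2]; exact Finset.mem_insert_of_mem hx
      rw [List.mem_toFinset, List.mem_append, List.mem_singleton] at this
      rcases this with h4 | h4
      · simpa using h4
      · have := hA x hx; omega

lemma gen (hSpl : StSpl) (hW : StW) (S : Finset ℕ) (p : Finset ℕ → Prop) [DecidablePred p] :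
    ∑ τ ∈ words S, ∑ i ∈ range (S.card + 1),
      (if p (τ.take i).toFinset then (f (τ.take i) * f (τ.drop i)) ^ 2 else 0) =
    ∑ C ∈ S.powerset, if p C then D C * D (S \ C) else 0 := by
  obtain ⟨hw, -, -, -⟩ := hW
  rw [Finset.sum_comm]
  rw [Finset.sum_powerset]
  apply Finset.sum_congr rfl
  intro i hi
  have hi' : i ≤ S.card := by have := Finset.mem_range.1 hi; omega
  have h := hSpl S i (fun u => if p u.toFinset then f u ^ 2 else 0) (fun v => f v ^ 2) hi'
  calc ∑ τ ∈ words S, (if p (τ.take i).toFinset then (f (τ.take i) * f (τ.drop i)) ^ 2 else 0)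
      = ∑ w ∈ words S, (fun u : List ℕ => if p u.toFinset then f u ^ 2 else 0) (w.take i) *
          (fun v => f v ^ 2) (w.drop i) := by
        apply Finset.sum_congr rfl
        intro τ _
        dsimp only
        split_ifs
        · rw [mul_pow]
        · simp
    _ = _ := h
    _ = _ := by
        apply Finset.sum_congr rfl
        intro C _
        have h1 : ∑ u ∈ words C, (fun u : List ℕ => if p u.toFinset then f u ^ 2 else 0) u =
            if p C then D C else 0 := by
          unfold D
          split_ifs with hp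
          · apply Finset.sum_congr rfl
            intro u hu
            rw [hw] at hu
            simp [hu.2, hp]
          · apply Finset.sum_eq_zero
            intro u hu
            rw [hw] at hu
            simp [hu.2, hp]
        rw [h1]
        have h2 : ∑ v ∈ words (S \ C), (fun v => f v ^ 2) v = D (S \ C) := rfl
        rw [h2]
        split_ifs <;> simp

lemma oneTerm (P : Finset ℕ) (a : ℕ → ℕ)
    (h : ∀ i ∈ P, ∀ j ∈ P, i ≠ j → a i = 0 ∨ a j = 0) :
    (∑ i ∈ P, a i) ^ 2 = ∑ i ∈ P, a i ^ 2 := by
  rw [sq, Finset.sum_mul_sum]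
  apply Finset.sum_congr rfl
  intro i hi
  rw [Finset.sum_eq_single i]
  · rw [sq]
  · intro j hj hji
    rcases h i hi j hj (Ne.symm hji) with h1 | h1 <;> simp [h1]
  · intro h1; exact absurd hi h1

lemma key (hF0 : StF0) (M' : ℕ) (u : List ℕ) (hu : u.Nodup) (hmax : ∀ x ∈ u, x ≤ M')
    (hM : M' ∈ u) (hf : f u ≠ 0) : ∃ σ, u = σ ++ [M'] := by
  have hne : u ≠ [] := by rintro rfl; simp at hM
  obtain ⟨σ, m, rfl, hm⟩ := hF0 u hu hf hne
  refine ⟨σ, ?_⟩
  have h1 : m ≤ M' := hmax m (by simp)
  rcases List.mem_append.1 hM with h2 | h2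
  · have := hm M' h2; omega
  · rw [List.mem_singleton] at h2; rw [h2]

lemma pt (hF0 : StF0) (hW : StW) (A : Finset ℕ) (M' : ℕ) (hA : ∀ a ∈ A, a < M') (τ : List ℕ)
    (hτ : τ ∈ words (insert M' A)) :
    (∑ i ∈ range (τ.length + 1), f (τ.take i) * f (τ.drop i)) ^ 2 ≤
      (∑ i ∈ range ((insert M' A).card + 1),
        (if (fun C : Finset ℕ => M' ∈ C ∧ C ≠ insert M' A) (τ.take i).toFinset then
          (f (τ.take i) * f (τ.drop i)) ^ 2 else 0)) +
      (A.card + 2) * ∑ i ∈ range ((insert M' A).card + 1),
        (if (fun C : Finset ℕ => ¬ (M' ∈ C ∧ C ≠ insert M' A)) (τ.take i).toFinset then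
          (f (τ.take i) * f (τ.drop i)) ^ 2 else 0) := by
  obtain ⟨hw, -, -, -⟩ := hW
  rw [hw] at hτ
  obtain ⟨hnd, hS⟩ := hτ
  have hMA : M' ∉ A := fun h => absurd (hA M' h) (lt_irrefl _)
  have hlen : τ.length = (insert M' A).card := by
    rw [← hS, List.toFinset_card_of_nodup hnd]
  have hcard : (insert M' A).card = A.card + 1 := Finset.card_insert_of_notMem hMA
  have hMτ : M' ∈ τ := by
    rw [← List.mem_toFinset, hS]; exact Finset.mem_insert_self _ _
  have hmax : ∀ x ∈ τ, x ≤ M' := by
    intro x hx
    have : x ∈ insert M' A := by rw [← hS]; simpa using hx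
    rcases Finset.mem_insert.1 this with h | h
    · exact h.le
    · exact (hA x h).le
  rw [← hlen]
  set R := range (τ.length + 1) with hR
  set a : ℕ → ℕ := fun i => f (τ.take i) * f (τ.drop i) with ha
  have hRcard : R.card = A.card + 2 := by rw [hR, Finset.card_range, hlen, hcard]
  rw [← Finset.sum_filter, ← Finset.sum_filter]
  set P := R.filter (fun i => M' ∈ (τ.take i).toFinset ∧ (τ.take i).toFinset ≠ insert M' A) with hP
  set Q := R.filter (fun i => ¬ (M' ∈ (τ.take i).toFinset ∧ (τ.take i).toFinset ≠ insert M' A))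
    with hQ
  have hsplit : ∑ i ∈ R, f (τ.take i) * f (τ.drop i) = ∑ i ∈ P, a i + ∑ i ∈ Q, a i := by
    rw [hP, hQ, Finset.sum_filter_add_sum_filter_not]
  rw [hsplit]
  change (∑ i ∈ P, a i + ∑ i ∈ Q, a i) ^ 2 ≤ ∑ i ∈ P, a i ^ 2 + (A.card + 2) * ∑ i ∈ Q, a i ^ 2
  by_cases hE : ∃ τ', τ = τ' ++ [M']
  · obtain ⟨τ', hτ'⟩ := hE
    have hM' : M' ∉ τ' := by
      intro h
      rw [hτ', List.nodup_append] at hnd
      exact hnd.2.2 M' h M' (by simp) rfl
    have hP0 : P = ∅ := by
      rw [Finset.eq_empty_iff_forall_notMem]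
      intro i hi
      rw [hP, Finset.mem_filter] at hi
      obtain ⟨hiR, h1, h2⟩ := hi
      have hil : i < τ.length + 1 := Finset.mem_range.1 hiR
      by_cases hi2 : i < τ.length
      · have h3 : τ.take i = τ'.take i := by
          rw [hτ', List.take_append_of_le_length]
          rw [hτ', List.length_append] at hi2
          simp at hi2; omega
        rw [h3, List.mem_toFinset] at h1
        exact hM' (List.mem_of_mem_take h1)
      · have h3 : τ.take i = τ := List.take_of_length_le (by omega)
        rw [h3] at h2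
        exact h2 hS
    rw [hP0, Finset.sum_empty, Finset.sum_empty, zero_add, zero_add]
    refine (sq_sum_le_card_mul_sum_sq (s := Q) (f := a)).trans ?_
    apply Nat.mul_le_mul_right
    rw [← hRcard]
    exact Finset.card_le_card (Finset.filter_subset _ _)
  · have hQ0 : ∀ i ∈ Q, a i = 0 := by
      intro i hi
      rw [hQ, Finset.mem_filter] at hi
      obtain ⟨hiR, h1⟩ := hi
      by_contra hne
      have hf1 : f (τ.take i) ≠ 0 := fun h => hne (by simp [ha, h])
      have hf2 : f (τ.drop i) ≠ 0 := fun h => hne (by simp [ha, h])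
      apply hE
      by_cases hm : M' ∈ τ.take i
      · have h2 : (τ.take i).toFinset = insert M' A := by
          by_contra h3
          exact h1 ⟨by simpa using hm, h3⟩
        obtain ⟨σ, hσ⟩ := key hF0 M' (τ.take i) (hnd.sublist (List.take_sublist _ _))
          (fun x hx => hmax x (List.mem_of_mem_take hx)) hm hf1
        have h4 : (τ.take i).length = τ.length := by
          rw [← List.toFinset_card_of_nodup (hnd.sublist (List.take_sublist i τ)), h2, hlen]
        have h5 : τ.take i = τ := (List.take_sublist i τ).eq_of_length h4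
        exact ⟨σ, by rw [← h5]; exact hσ⟩
      · have hd : M' ∈ τ.drop i := by
          have h6 := List.take_append_drop i τ
          rw [← h6] at hMτ
          rcases List.mem_append.1 hMτ with h7 | h7
          · exact absurd h7 hm
          · exact h7
        obtain ⟨σ, hσ⟩ := key hF0 M' (τ.drop i) (hnd.sublist (List.drop_sublist _ _))
          (fun x hx => hmax x (List.mem_of_mem_drop hx)) hd hf2
        refine ⟨τ.take i ++ σ, ?_⟩
        rw [List.append_assoc, ← hσ, List.take_append_drop]
    have hQs : ∑ i ∈ Q, a i = 0 := Finset.sum_eq_zero hQ0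
    rw [hQs, add_zero]
    have hP1 : (∑ i ∈ P, a i) ^ 2 = ∑ i ∈ P, a i ^ 2 := by
      apply oneTerm
      have aux : ∀ i ∈ P, ∀ j ∈ P, i < j → a j = 0 := by
        intro i hi j hj hij
        rw [hP, Finset.mem_filter] at hi hj
        by_contra hne
        have hf1 : f (τ.take j) ≠ 0 := fun h => hne (by simp [ha, h])
        have hmj : M' ∈ τ.take j := by simpa using hj.2.1
        have hmi : M' ∈ τ.take i := by simpa using hi.2.1
        obtain ⟨σ, hσ⟩ := key hF0 M' (τ.take j) (hnd.sublist (List.take_sublist _ _))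
          (fun x hx => hmax x (List.mem_of_mem_take hx)) hmj hf1
        have hjl : j < τ.length + 1 := Finset.mem_range.1 hj.1
        have hσl : σ.length + 1 = j := by
          have := congrArg List.length hσ
          rw [List.length_take, List.length_append] at this
          simp at this; omega
        have h8 : τ.take i = σ.take i := by
          have h9 : τ.take i = (τ.take j).take i := by
            rw [List.take_take]; congr 1; omega
          rw [h9, hσ, List.take_append_of_le_length]
          omega
        rw [h8] at hmi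
        have h10 : M' ∈ σ := List.mem_of_mem_take hmi
        have h11 : (σ ++ [M']).Nodup := by rw [← hσ]; exact hnd.sublist (List.take_sublist _ _)
        rw [List.nodup_append] at h11
        exact h11.2.2 M' h10 M' (by simp) rfl
      intro i hi j hj hij
      rcases lt_or_gt_of_ne hij with h | h
      · exact Or.inr (aux i hi j hj h)
      · exact Or.inl (aux j hj i hi h)
    rw [hP1]
    exact Nat.le_add_right _ _

theorem t : StF1 → StF0 → StW → StSpl → StRec2 := by
  intro hF1 hF0 hW hSpl A M' M hA hM
  have hMA : M' ∉ A := fun h => absurd (hA M' h) (lt_irrefl _)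
  have hD0 : D ∅ = 1 := hW.2.2.2
  have hS : ∀ a ∈ insert M' A, a < M := by
    intro a ha
    rcases Finset.mem_insert.1 ha with h | h
    · omega
    · have := hA a h; omega
  rw [Dins hF0 hW (insert M' A) M hS]
  have h1 : ∑ τ ∈ words (insert M' A), f (τ ++ [M]) ^ 2 ≤
      ∑ τ ∈ words (insert M' A), ((∑ i ∈ range ((insert M' A).card + 1),
        (if (fun C : Finset ℕ => M' ∈ C ∧ C ≠ insert M' A) (τ.take i).toFinset then
          (f (τ.take i) * f (τ.drop i)) ^ 2 else 0)) +
      (A.card + 2) * ∑ i ∈ range ((insert M' A).card + 1),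
        (if (fun C : Finset ℕ => ¬ (M' ∈ C ∧ C ≠ insert M' A)) (τ.take i).toFinset then
          (f (τ.take i) * f (τ.drop i)) ^ 2 else 0)) := by
    apply Finset.sum_le_sum
    intro τ hτ
    have h2 := (hW.1 (insert M' A) τ).1 hτ
    rw [hF1 τ M h2.1 (fun a ha => hS a (by rw [← h2.2]; simpa using ha))]
    exact pt hF0 hW A M' hA τ hτ
  refine h1.trans ?_
  rw [Finset.sum_add_distrib, ← Finset.mul_sum,
    gen hSpl hW (insert M' A) (fun C => M' ∈ C ∧ C ≠ insert M' A),
    gen hSpl hW (insert M' A) (fun C => ¬ (M' ∈ C ∧ C ≠ insert M' A)),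
    Finset.sum_powerset_insert hMA, Finset.sum_powerset_insert hMA]
  have hnot : ∀ C ∈ A.powerset, M' ∉ C := fun C hC h => hMA (Finset.mem_powerset.1 hC h)
  have e1 : ∑ C ∈ A.powerset, (if M' ∈ C ∧ C ≠ insert M' A then D C * D (insert M' A \ C) else 0)
      = 0 := by
    apply Finset.sum_eq_zero
    intro C hC
    rw [if_neg (fun h => hnot C hC h.1)]
  have e2 : ∑ C ∈ A.powerset, (if M' ∈ insert M' C ∧ insert M' C ≠ insert M' A then
      D (insert M' C) * D (insert M' A \ insert M' C) else 0) =
      ∑ B ∈ A.powerset.erase A, D (insert M' B) * D (A \ B) := by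
    rw [← Finset.sum_erase_add _ _ (Finset.mem_powerset_self A)]
    rw [if_neg (fun h => h.2 rfl), add_zero]
    apply Finset.sum_congr rfl
    intro C hC
    obtain ⟨hCA, hC2⟩ := Finset.mem_erase.1 hC
    have h3 : insert M' C ≠ insert M' A := by
      intro h
      apply hCA
      have h4 := congrArg (fun s => Finset.erase s M') h
      simpa [Finset.erase_insert (hnot C hC2), Finset.erase_insert hMA] using h4
    have h5 : insert M' A \ insert M' C = A \ C := by
      rw [Finset.insert_sdiff_insert, Finset.sdiff_insert_of_notMem hMA]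
    rw [if_pos ⟨Finset.mem_insert_self _ _, h3⟩, h5]
  have e3 : ∑ C ∈ A.powerset, (if ¬ (M' ∈ C ∧ C ≠ insert M' A) then
      D C * D (insert M' A \ C) else 0) = ∑ B ∈ A.powerset, D B * D (insert M' (A \ B)) := by
    apply Finset.sum_congr rfl
    intro C hC
    rw [if_pos (fun h => hnot C hC h.1), Finset.insert_sdiff_of_notMem _ (hnot C hC)]
  have e4 : ∑ C ∈ A.powerset, (if ¬ (M' ∈ insert M' C ∧ insert M' C ≠ insert M' A) then
      D (insert M' C) * D (insert M' A \ insert M' C) else 0) = D (insert M' A) := by
    rw [Finset.sum_eq_single A]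
    · rw [if_pos (fun h => h.2 rfl), Finset.sdiff_self, hD0, mul_one]
    · intro C hC hCA
      have h3 : insert M' C ≠ insert M' A := by
        intro h
        apply hCA
        have h4 := congrArg (fun s => Finset.erase s M') h
        simpa [Finset.erase_insert (hnot C hC), Finset.erase_insert hMA] using h4
      rw [if_neg (fun h => h ⟨Finset.mem_insert_self _ _, h3⟩)]
    · intro h; exact absurd (Finset.mem_powerset_self A) h
  rw [e1, e2, e3, e4, zero_add]

end Pool.Agent.K7.H70.SGREC2
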